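/-
MP_1da1b4_al.IndependentConjugates.  A finitely generated group acts on X, F is a finite subset of X
which contains a point with infinite orbit.  If g is not in the subgroup generated by its conjugates
h g h⁻¹ with f not in h F, for every f in F, then the growth is at least exp (r ^ (2/3)).
-/
import Mathlib
import Pool.Agent.Lib.MP_1da1b4_al.Fin

namespace Pool.Agent.Results.MP_1da1b4_al.IndependentConjugates

open scoped Pointwise

/-- `f ⪯ g` of the problem: there is `C ≥ 1` with `f r ≤ C g (C r)` for all `r ≥ 1` -/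
def Preceq (f g : ℕ → ℝ) : Prop := ∃ C : ℕ, 1 ≤ C ∧ ∀ r : ℕ, 1 ≤ r → f r ≤ C * g (C * r)

/-- **Theorem.**  Let `S` be a finite symmetric generating set of `G` with `1 ∈ S` (so that `S ^ r` is
the ball of radius `r` of the Cayley graph).  Let `G` act on `X`, let `F` be a finite subset of `X`
which contains a point `o` with infinite orbit, and let `g` be an element of `G` which, for every
`f ∈ F`, is not in the subgroup generated by all `h g h⁻¹` with `f ∉ h F`.  Then the growth of `G` is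
at least `exp (r ^ (2/3))`. -/
theorem result {G X : Type*} [Group G] [MulAction G X] (S : Set G) (hS : S.Finite)
    (h1 : (1 : G) ∈ S) (hinv : ∀ s ∈ S, s⁻¹ ∈ S) (hgen : Subgroup.closure S = ⊤)
    (F : Set X) (hF : F.Finite) (o : X) (hoF : o ∈ F) (ho : (MulAction.orbit G o).Infinite) (g : G)
    (hg : ∀ f ∈ F, g ∉ Subgroup.closure {y | ∃ h : G, (∀ x ∈ F, h • x ≠ f) ∧ y = h * g * h⁻¹}) :
    Preceq (fun r => Real.exp ((r : ℝ) ^ ((2 : ℝ) / 3))) (fun r => ((S ^ r).ncard : ℝ)) := by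
  classical
  lift S to Finset G using hS
  lift F to Finset X using hF
  have h1' : (1 : G) ∈ S := Finset.mem_coe.1 h1
  have hinv' : ∀ s ∈ S, s⁻¹ ∈ S := fun s hs => Finset.mem_coe.1 (hinv s (Finset.mem_coe.2 hs))
  have hoF' : o ∈ F := Finset.mem_coe.1 hoF
  have hgK : ∀ f ∈ F, g ∉ Pool.Agent.Lib.MP_1da1b4_al.KK F g {x | x ≠ f} := hg
  obtain ⟨l, hgl⟩ := Pool.Agent.Lib.MP_1da1b4_al.reach S hinv' hgen g
  have hcube := Pool.Agent.Lib.MP_1da1b4_al.cube S F o g h1' hinv' hgen hoF' ho hgK l hgl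
  refine ⟨142 * (2 * l + 1) * (S.card * F.card) + 21, Nat.le_add_left 1 _, fun r hr => ?_⟩
  set C : ℕ := 142 * (2 * l + 1) * (S.card * F.card) + 21 with hC
  have hcard : 1 ≤ (S ^ (C * r)).card := by
    refine Finset.card_pos.2 ⟨1, Pool.Agent.Lib.MP_1da1b4_al.pow_mono S h1' (Nat.zero_le _) ?_⟩
    rw [pow_zero]
    exact Finset.mem_one.2 rfl
  have hb : (1 : ℝ) ≤ ((S ^ (C * r)).card : ℝ) := by exact_mod_cast hcard
  set B := Real.log ((S ^ (C * r)).card : ℝ) with hB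
  have hB0 : 0 ≤ B := Real.log_nonneg hb
  have h2 := hcube (C * r)
  have hCpos : (0 : ℝ) < C := by
    have : 0 < C := by omega
    exact_mod_cast this
  have h3 : 142 * ((2 * l + 1 : ℕ) : ℝ) * ((S.card : ℝ) * F.card) ≤ C := by
    rw [hC]
    push_cast
    linarith
  have h4 : ((r : ℝ)) ^ 2 ≤ (B + 3) ^ 3 := by
    have h5 : (142 * ((2 * l + 1 : ℕ) : ℝ) * ((S.card : ℝ) * F.card)) ^ 2 ≤ (C : ℝ) ^ 2 :=
      pow_le_pow_left₀ (by positivity) h3 2
    have h6 : ((C * r : ℕ) : ℝ) ^ 2 ≤ (C : ℝ) ^ 2 * (B + 3) ^ 3 :=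
      h2.trans (mul_le_mul_of_nonneg_right h5 (by positivity))
    have h7 : ((C * r : ℕ) : ℝ) ^ 2 = (C : ℝ) ^ 2 * (r : ℝ) ^ 2 := by
      push_cast
      ring
    rw [h7] at h6
    exact le_of_mul_le_mul_left h6 (by positivity)
  have h8 : (r : ℝ) ^ ((2 : ℝ) / 3) ≤ B + 3 := by
    have hr0 : (0 : ℝ) ≤ r := Nat.cast_nonneg r
    have e1 : (r : ℝ) ^ ((2 : ℝ) / 3) = ((r : ℝ) ^ (2 : ℕ)) ^ ((1 : ℝ) / 3) := by
      rw [← Real.rpow_natCast, ← Real.rpow_mul hr0]
      norm_num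
    have e2 : B + 3 = ((B + 3) ^ (3 : ℕ)) ^ ((1 : ℝ) / 3) := by
      rw [← Real.rpow_natCast, ← Real.rpow_mul (by linarith)]
      norm_num
    rw [e1, e2]
    exact Real.rpow_le_rpow (by positivity) h4 (by norm_num)
  have h9 : Real.exp ((r : ℝ) ^ ((2 : ℝ) / 3)) ≤ ((S ^ (C * r)).card : ℝ) * 21 := by
    have e3 : Real.exp 3 ≤ 21 := by
      have h5 : Real.exp 3 = Real.exp 1 ^ 3 := by
        rw [← Real.exp_nat_mul]
        norm_num
      rw [h5]
      have h7 : Real.exp 1 ^ 3 ≤ (2.7182818286 : ℝ) ^ 3 :=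
        pow_le_pow_left₀ (Real.exp_pos 1).le Real.exp_one_lt_d9.le 3
      refine h7.trans ?_
      norm_num
    calc Real.exp ((r : ℝ) ^ ((2 : ℝ) / 3)) ≤ Real.exp (B + 3) := Real.exp_le_exp.2 h8
      _ = ((S ^ (C * r)).card : ℝ) * Real.exp 3 := by
          rw [Real.exp_add, hB, Real.exp_log (by linarith)]
      _ ≤ _ := mul_le_mul_of_nonneg_left e3 (by linarith)
  have h10 : (21 : ℝ) ≤ C := by
    rw [hC]
    push_cast
    have : (0 : ℝ) ≤ 142 * (2 * (l : ℝ) + 1) * ((S.card : ℝ) * F.card) := by positivity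
    linarith
  show Real.exp ((r : ℝ) ^ ((2 : ℝ) / 3)) ≤ (C : ℝ) * ((((S : Set G)) ^ (C * r)).ncard : ℝ)
  rw [← Finset.coe_pow, Set.ncard_coe_finset]
  have h11 : ((S ^ (C * r)).card : ℝ) * 21 ≤ ((S ^ (C * r)).card : ℝ) * C :=
    mul_le_mul_of_nonneg_left h10 (by linarith)
  linarith

end Pool.Agent.Results.MP_1da1b4_al.IndependentConjugates
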