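/-
MP_1da1b4_al.NormalClosures.  A group acting on a connected locally finite graph of growth less than
exp (sqrt r): normal closures of bounded sets are generated by bounded sets.
-/
import Mathlib

namespace Pool.Agent.Results.MP_1da1b4_al.NormalClosures

open Set

/-- `f ⪯ g` of the problem: there is `C ≥ 1` with `f r ≤ C g (C r)` for all `r ≥ 1` -/
def Preceq (f g : ℕ → ℝ) : Prop := ∃ C : ℕ, 1 ≤ C ∧ ∀ r : ℕ, 1 ≤ r → f r ≤ C * g (C * r)

/-- the number of vertices at distance at most `r` from `o` -/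
noncomputable def vol {V : Type*} (Γ : SimpleGraph V) (o : V) (r : ℕ) : ℝ :=
  ({x | Γ.dist o x ≤ r}.ncard : ℝ)

/-- the elements of `A` move the vertex `o` by a bounded distance -/
def Bdd {V G : Type*} [Group G] [MulAction G V] (Γ : SimpleGraph V) (o : V) (A : Set G) : Prop :=
  ∃ R : ℕ, ∀ g ∈ A, Γ.dist o (g • o) ≤ R

section

variable {V : Type*} {Γ : SimpleGraph V} {G : Type*} [Group G] [MulAction G V] {o : V}

theorem ball_finite (hc : Γ.Connected) (hlf : ∀ v, (Γ.neighborSet v).Finite) (o : V) (r : ℕ) :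
    {x | Γ.dist o x ≤ r}.Finite := by
  induction r with
  | zero =>
    refine (Set.finite_singleton o).subset fun x hx => ?_
    have h0 : Γ.dist o x = 0 := Nat.le_zero.1 hx
    exact ((hc.dist_eq_zero_iff).1 h0).symm
  | succ r ih =>
    refine (ih.union (ih.biUnion fun y _ => hlf y)).subset fun x hx => ?_
    have hx' : Γ.dist o x ≤ r + 1 := hx
    rcases Nat.lt_or_ge (Γ.dist o x) (r + 1) with h | h
    · exact Or.inl (Nat.lt_succ_iff.1 h)
    · right
      have hd : Γ.dist o x = r + 1 := le_antisymm hx' h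
      obtain ⟨p, hp⟩ := (hc x o).exists_walk_length_eq_dist
      have hpl : p.length = r + 1 := by rw [hp, SimpleGraph.dist_comm, hd]
      cases p with
      | nil => simp at hpl
      | cons hadj q =>
        rename_i y
        have hq : q.length = r := by
          simpa using hpl
        refine Set.mem_biUnion (x := y) ?_ hadj.symm
        show Γ.dist o y ≤ r
        rw [SimpleGraph.dist_comm, ← hq]
        exact SimpleGraph.dist_le q

theorem dist_smul_le (hc : Γ.Connected) (hact : ∀ (g : G) (x y : V), Γ.Adj x y → Γ.Adj (g • x) (g • y))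
    (g : G) (x y : V) : Γ.dist (g • x) (g • y) ≤ Γ.dist x y := by
  obtain ⟨p, hp⟩ := (hc x y).exists_walk_length_eq_dist
  let f : Γ →g Γ := ⟨fun z => g • z, fun {a b} h => hact g a b h⟩
  have h := SimpleGraph.dist_le (p.map f)
  rw [SimpleGraph.Walk.length_map, hp] at h
  exact h

theorem dist_smul (hc : Γ.Connected) (hact : ∀ (g : G) (x y : V), Γ.Adj x y → Γ.Adj (g • x) (g • y))
    (g : G) (x y : V) : Γ.dist (g • x) (g • y) = Γ.dist x y := by
  refine le_antisymm (dist_smul_le hc hact g x y) ?_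
  have h := dist_smul_le hc hact g⁻¹ (g • x) (g • y)
  rwa [inv_smul_smul, inv_smul_smul] at h

/-- the displacement of `o` -/
noncomputable def dd (Γ : SimpleGraph V) (o : V) (g : G) : ℕ := Γ.dist o (g • o)

theorem dd_mul (hc : Γ.Connected) (hact : ∀ (g : G) (x y : V), Γ.Adj x y → Γ.Adj (g • x) (g • y))
    (g h : G) : dd Γ o (g * h) ≤ dd Γ o g + dd Γ o h := by
  unfold dd
  have h1 := hc.dist_triangle (u := o) (v := g • o) (w := (g * h) • o)
  rw [mul_smul, dist_smul hc hact g o (h • o), ← mul_smul] at h1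
  exact h1

theorem dd_inv (hc : Γ.Connected) (hact : ∀ (g : G) (x y : V), Γ.Adj x y → Γ.Adj (g • x) (g • y))
    (g : G) : dd Γ o g⁻¹ = dd Γ o g := by
  unfold dd
  rw [← dist_smul hc hact g o (g⁻¹ • o), smul_inv_smul, SimpleGraph.dist_comm]

theorem dd_one : dd Γ o (1 : G) = 0 := by simp [dd]

/-- the subgroup generated by the elements of `N` of displacement at most `R` -/
def NN (Γ : SimpleGraph V) (o : V) (N : Subgroup G) (R : ℕ) : Subgroup G :=
  Subgroup.closure {n | n ∈ N ∧ dd Γ o n ≤ R}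

theorem mem_NN {N : Subgroup G} {R : ℕ} {n : G} (hn : n ∈ N) (h : dd Γ o n ≤ R) :
    n ∈ NN Γ o N R := Subgroup.subset_closure ⟨hn, h⟩

theorem NN_mono (N : Subgroup G) {R R' : ℕ} (h : R ≤ R') : NN Γ o N R ≤ NN Γ o N R' :=
  Subgroup.closure_mono fun _ hn => ⟨hn.1, hn.2.trans h⟩

theorem NN_le (N : Subgroup G) (R : ℕ) : NN Γ o N R ≤ N :=
  (Subgroup.closure_le N).2 fun _ hn => hn.1

theorem conj_NN (hc : Γ.Connected) (hact : ∀ (g : G) (x y : V), Γ.Adj x y → Γ.Adj (g • x) (g • y))
    (N : Subgroup G) [hN : N.Normal] (R l : ℕ) {s : G} (hs : dd Γ o s ≤ l) {n : G}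
    (hn : n ∈ NN Γ o N R) : s * n * s⁻¹ ∈ NN Γ o N (R + 2 * l) := by
  have key : NN Γ o N R ≤ (NN Γ o N (R + 2 * l)).comap (MulAut.conj s).toMonoidHom := by
    refine (Subgroup.closure_le _).2 fun n hn => ?_
    show s * n * s⁻¹ ∈ NN Γ o N (R + 2 * l)
    refine mem_NN (hN.conj_mem n hn.1 s) ?_
    have h1 := dd_mul (o := o) hc hact (s * n) s⁻¹
    have h2 := dd_mul (o := o) hc hact s n
    have h3 := dd_inv (o := o) hc hact s
    have h4 := hn.2
    omega
  exact key hn

/-- two equal steps of the filtration give a normal subgroup -/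
theorem normal_NN (hc : Γ.Connected) (hact : ∀ (g : G) (x y : V), Γ.Adj x y → Γ.Adj (g • x) (g • y))
    {S : Set G} {l : ℕ} (hS : ∀ g ∈ S, dd Γ o g ≤ l) (hgen : Subgroup.closure S = ⊤)
    (N : Subgroup G) [hN : N.Normal] (R : ℕ) (h : NN Γ o N (R + 2 * l) ≤ NN Γ o N R) :
    (NN Γ o N R).Normal := by
  rw [← Subgroup.normalizer_eq_top_iff, eq_top_iff, ← hgen, Subgroup.closure_le]
  intro s hs
  rw [SetLike.mem_coe, Subgroup.mem_normalizer_iff]
  intro n
  refine ⟨fun hn => h (conj_NN hc hact N R l (hS s hs) hn), fun hn => ?_⟩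
  have h1 := h (conj_NN hc hact N R l (s := s⁻¹) ((dd_inv hc hact s).le.trans (hS s hs)) hn)
  simpa [mul_assoc] using h1

/-- the ordered products -/
noncomputable def ww (g : ℕ → G) : ℕ → (ℕ → Bool) → G
  | 0, _ => 1
  | m + 1, ε => (if ε m then g m else 1) * ww g m ε

end

/-- **Theorem.**  Let the group `G` act on the connected locally finite graph `Γ` and let `G` be
generated by a bounded set (in a Cayley graph: a finite set).  If `G` has a normal subgroup `N` which
is the normal closure of a bounded set, but is not generated by a bounded set, then the growth of `Γ`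
is at least `exp (sqrt r)`. -/
theorem result {V : Type*} (Γ : SimpleGraph V) (hc : Γ.Connected)
    (hlf : ∀ v, (Γ.neighborSet v).Finite) (o : V) {G : Type*} [Group G] [MulAction G V]
    (hact : ∀ (g : G) (x y : V), Γ.Adj x y → Γ.Adj (g • x) (g • y))
    (hG : ∃ S : Set G, Bdd Γ o S ∧ Subgroup.closure S = ⊤)
    (N : Subgroup G) (hN : ∃ F : Set G, Bdd Γ o F ∧ Subgroup.normalClosure F = N)
    (hN' : ¬ ∃ E : Set G, Bdd Γ o E ∧ Subgroup.closure E = N) :
    Preceq (fun r => Real.exp (Real.sqrt r)) (vol Γ o) := by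
  obtain ⟨S, ⟨l, hS⟩, hgen⟩ := hG
  obtain ⟨F, ⟨k, hF⟩, hNF⟩ := hN
  have hnorm : N.Normal := by rw [← hNF]; infer_instance
  have hFN : F ⊆ N := by rw [← hNF]; exact Subgroup.subset_normalClosure
  -- the filtration never stops
  have hstep : ∀ R, k ≤ R → ∃ g ∈ N, dd Γ o g ≤ R + 2 * l ∧ g ∉ NN Γ o N R := by
    intro R hR
    by_contra hcon
    push Not at hcon
    have hle : NN Γ o N (R + 2 * l) ≤ NN Γ o N R :=
      (Subgroup.closure_le _).2 fun g hg => hcon g hg.1 hg.2
    have hnR : (NN Γ o N R).Normal := normal_NN hc hact hS hgen N R hle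
    have h0 : Subgroup.normalClosure F ≤ NN Γ o N R :=
      Subgroup.normalClosure_le_normal fun f hf => mem_NN (hFN hf) ((hF f hf).trans hR)
    have h1 : N ≤ NN Γ o N R := hNF ▸ h0
    exact hN' ⟨{n | n ∈ N ∧ dd Γ o n ≤ R}, ⟨R, fun g hg => hg.2⟩, le_antisymm (NN_le N R) h1⟩
  have hch : ∀ i : ℕ, ∃ g ∈ N, dd Γ o g ≤ k + i * (2 * l) + 2 * l ∧
      g ∉ NN Γ o N (k + i * (2 * l)) := fun i => hstep _ (Nat.le_add_right _ _)
  choose g hgN hgd hgn using hch
  have hwN : ∀ m ε, ww g m ε ∈ NN Γ o N (k + m * (2 * l)) := by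
    intro m
    induction m with
    | zero => intro ε; exact Subgroup.one_mem _
    | succ m ih =>
      intro ε
      have e : k + (m + 1) * (2 * l) = k + m * (2 * l) + 2 * l := by ring
      refine Subgroup.mul_mem _ ?_ (NN_mono N (by rw [e]; exact Nat.le_add_right _ _) (ih ε))
      by_cases hε : ε m = true
      · rw [if_pos hε, e]
        exact mem_NN (hgN m) (hgd m)
      · rw [if_neg hε]
        exact Subgroup.one_mem _
  have hwd : ∀ m ε, dd Γ o (ww g m ε) ≤ m * (k + m * (2 * l)) := by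
    intro m
    induction m with
    | zero => intro ε; exact (dd_one (Γ := Γ) (o := o) (G := G)).le.trans (Nat.zero_le _)
    | succ m ih =>
      intro ε
      have h1 : dd Γ o (if ε m = true then g m else 1) ≤ k + m * (2 * l) + 2 * l := by
        by_cases hε : ε m = true
        · rw [if_pos hε]; exact hgd m
        · rw [if_neg hε, dd_one]; exact Nat.zero_le _
      have h2 := dd_mul (o := o) hc hact (if ε m = true then g m else 1) (ww g m ε)
      have h3 := ih ε
      show dd Γ o ((if ε m = true then g m else 1) * ww g m ε) ≤ (m + 1) * (k + (m + 1) * (2 * l))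
      nlinarith [Nat.zero_le (m * l)]
  have hinj : ∀ m (ε ε' : ℕ → Bool), ww g m ε • o = ww g m ε' • o → ∀ i < m, ε i = ε' i := by
    -- the decisive case
    have key : ∀ m (ε ε' : ℕ → Bool), ¬ (g m * ww g m ε) • o = ww g m ε' • o := by
      intro m ε ε' h
      have hfix : ((ww g m ε')⁻¹ * (g m * ww g m ε)) • o = o := by
        rw [mul_smul, h, inv_smul_smul]
      have hmemN : (ww g m ε')⁻¹ * (g m * ww g m ε) ∈ N :=
        N.mul_mem (N.inv_mem (NN_le N _ (hwN m ε')))
          (N.mul_mem (hgN m) (NN_le N _ (hwN m ε)))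
      have hmem : (ww g m ε')⁻¹ * (g m * ww g m ε) ∈ NN Γ o N (k + m * (2 * l)) := by
        refine mem_NN hmemN ?_
        unfold dd
        rw [hfix, SimpleGraph.dist_self]
        exact Nat.zero_le _
      apply hgn m
      have h2 := Subgroup.mul_mem _ (Subgroup.mul_mem _ (hwN m ε') hmem)
        (Subgroup.inv_mem _ (hwN m ε))
      simpa [mul_assoc] using h2
    intro m
    induction m with
    | zero => intro ε ε' _ i hi; exact absurd hi (Nat.not_lt_zero i)
    | succ m ih =>
      intro ε ε' h i hi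
      have h' : ((if ε m = true then g m else 1) * ww g m ε) • o =
        ((if ε' m = true then g m else 1) * ww g m ε') • o := h
      by_cases h1 : ε m = true
      · by_cases h2 : ε' m = true
        · rw [if_pos h1, if_pos h2, mul_smul, mul_smul] at h'
          have h3 := smul_left_cancel _ h'
          rcases Nat.lt_succ_iff_lt_or_eq.1 hi with h4 | h4
          · exact ih ε ε' h3 i h4
          · rw [h4, h1, h2]
        · rw [if_pos h1, if_neg h2, one_mul] at h'
          exact absurd h' (key m ε ε')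
      · by_cases h2 : ε' m = true
        · rw [if_neg h1, if_pos h2, one_mul] at h'
          exact absurd h'.symm (key m ε' ε)
        · rw [if_neg h1, if_neg h2, one_mul, one_mul] at h'
          rcases Nat.lt_succ_iff_lt_or_eq.1 hi with h4 | h4
          · exact ih ε ε' h' i h4
          · rw [h4, Bool.eq_false_iff.2 h1, Bool.eq_false_iff.2 h2]
  -- counting
  have hcount : ∀ m : ℕ, (2 : ℝ) ^ m ≤ vol Γ o (m * (k + m * (2 * l))) := by
    intro m
    let ext : (Fin m → Bool) → (ℕ → Bool) := fun ε i => if h : i < m then ε ⟨i, h⟩ else false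
    let f : (Fin m → Bool) → V := fun ε => ww g m (ext ε) • o
    have hf : Function.Injective f := by
      intro ε ε' h
      funext i
      have h1 := hinj m (ext ε) (ext ε') h i.1 i.2
      simpa [ext] using h1
    have hfin := ball_finite hc hlf o (m * (k + m * (2 * l)))
    have h1 : (f '' Set.univ).ncard ≤ {x | Γ.dist o x ≤ m * (k + m * (2 * l))}.ncard := by
      refine Set.ncard_le_ncard ?_ hfin
      rintro _ ⟨ε, -, rfl⟩
      exact hwd m (ext ε)
    rw [Set.ncard_image_of_injective _ hf, Set.ncard_univ, Nat.card_eq_fintype_card,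
      Fintype.card_fun, Fintype.card_bool, Fintype.card_fin] at h1
    unfold vol
    calc (2 : ℝ) ^ m = ((2 ^ m : ℕ) : ℝ) := by push_cast; ring
      _ ≤ _ := by exact_mod_cast h1
  have hmono : ∀ a b : ℕ, a ≤ b → vol Γ o a ≤ vol Γ o b := by
    intro a b hab
    unfold vol
    have h1 : {x | Γ.dist o x ≤ a}.ncard ≤ {x | Γ.dist o x ≤ b}.ncard :=
      Set.ncard_le_ncard (fun x hx => le_trans hx hab) (ball_finite hc hlf o b)
    exact_mod_cast h1
  refine ⟨4 * k + 32 * l + 1, Nat.le_add_left 1 _, fun r hr => ?_⟩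
  set j := Nat.sqrt r + 1 with hj
  have hs1 : 1 ≤ Nat.sqrt r := Nat.sqrt_pos.2 hr
  have hs2 : Nat.sqrt r * Nat.sqrt r ≤ r := Nat.sqrt_le r
  have hs3 : Nat.sqrt r ≤ r := Nat.sqrt_le_self r
  have hj2 : j ≤ 2 * Nat.sqrt r := by omega
  have hjj : j * j ≤ 4 * r := by nlinarith
  have hlen : (2 * j) * (k + (2 * j) * (2 * l)) ≤ (4 * k + 32 * l + 1) * r := by
    have a1 : j * k ≤ 2 * r * k := Nat.mul_le_mul_right k (by omega)
    have a2 : j * j * l ≤ 4 * r * l := Nat.mul_le_mul_right l hjj
    nlinarith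
  have hsq : Real.sqrt r ≤ (j : ℝ) := by
    rw [Real.sqrt_le_left (by positivity)]
    have h1 : r < j * j := Nat.lt_succ_sqrt r
    have h2 : (r : ℝ) ≤ (j : ℝ) * j := by exact_mod_cast h1.le
    nlinarith
  have he : Real.exp (Real.sqrt r) ≤ (2 : ℝ) ^ (2 * j) := by
    calc Real.exp (Real.sqrt r) ≤ Real.exp (j : ℝ) := Real.exp_le_exp.2 hsq
      _ = Real.exp 1 ^ j := by rw [← Real.exp_nat_mul, mul_one]
      _ ≤ 4 ^ j := by
          refine pow_le_pow_left₀ (Real.exp_pos 1).le ?_ j
          have := Real.exp_one_lt_d9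
          linarith
      _ = (2 : ℝ) ^ (2 * j) := by rw [pow_mul]; norm_num
  have h1 := (he.trans (hcount (2 * j))).trans (hmono _ _ hlen)
  have h2 : (0 : ℝ) ≤ vol Γ o ((4 * k + 32 * l + 1) * r) := Nat.cast_nonneg _
  have h3 : (1 : ℝ) ≤ ((4 * k + 32 * l + 1 : ℕ) : ℝ) := by exact_mod_cast Nat.le_add_left 1 _
  show Real.exp (Real.sqrt r) ≤ ((4 * k + 32 * l + 1 : ℕ) : ℝ) * vol Γ o ((4 * k + 32 * l + 1) * r)
  nlinarith

end Pool.Agent.Results.MP_1da1b4_al.NormalClosures
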